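import Pool.Agent.Helper25.FN.Spec

set_option autoImplicit false

/-!
# FN INJ: injectivity of `Q ↦ P(∂)(P* Q)` on functions of exponential type
-/

namespace Pool.Agent.Helper2.FN.INJ

open Pool.Agent.Helper25.FN
open Pool.Agent.Helper25.FB.Inj (Entire IsAF FBorel ExpType InPerp star InPStarExp)

theorem eval_line {n : ℕ} (p : Pol n) (z w : V n) (t : ℂ) :
    (MvPolynomial.aeval (fun i => Polynomial.C (z i) + Polynomial.X * Polynomial.C (w i - z i)) p :
      Polynomial ℂ).eval t = MvPolynomial.eval (fun i => z i + t * (w i - z i)) p := by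
  induction p using MvPolynomial.induction_on with
  | C a => simp
  | add p q hp hq => rw [map_add, Polynomial.eval_add, hp, hq, map_add]
  | mul_X p i hp =>
    rw [map_mul, Polynomial.eval_mul, hp, map_mul]
    simp

/-- a function which vanishes off the zeros of a nonzero polynomial vanishes -/
theorem zero_of_mul {n : ℕ} (p : Pol n) (hp : p ≠ 0) (Q : V n → ℂ) (hQ : Continuous Q)
    (h : ∀ z, MvPolynomial.eval z p * Q z = 0) : ∀ z, Q z = 0 := by
  intro z
  obtain ⟨w, hw⟩ : ∃ w : V n, MvPolynomial.eval w p ≠ 0 := by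
    by_contra hc
    push Not at hc
    exact hp (MvPolynomial.funext fun x => by rw [hc x, map_zero])
  obtain ⟨u, hu⟩ : ∃ u : Polynomial ℂ, ∀ t, u.eval t =
      MvPolynomial.eval (fun i => z i + t * (w i - z i)) p := ⟨_, eval_line p z w⟩
  have hu0 : u ≠ 0 := by
    intro h0
    apply hw
    have h1 := hu 1
    rw [h0, Polynomial.eval_zero] at h1
    have h2 : (fun i => z i + 1 * (w i - z i)) = w := by
      funext i
      ring
    rw [h2] at h1
    exact h1.symm
  have hd : Dense {t : ℂ | u.eval t = 0}ᶜ := by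
    have hf : {t : ℂ | u.eval t = 0}.Finite := by
      refine (u.roots.toFinset.finite_toSet).subset fun t ht => ?_
      rw [Finset.mem_coe, Multiset.mem_toFinset, Polynomial.mem_roots hu0]
      exact ht
    exact hf.countable.dense_compl ℝ
  have hc : (fun t : ℂ => Q (fun i => z i + t * (w i - z i))) = fun _ => 0 := by
    refine Continuous.ext_on hd (hQ.comp (by fun_prop)) continuous_const fun t ht => ?_
    have h1 := h (fun i => z i + t * (w i - z i))
    rw [← hu t] at h1
    exact (mul_eq_zero.1 h1).resolve_left ht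
  have h0 := congrFun hc 0
  simpa using h0

theorem main (hF : S_FBS) : S_INJ := by
  intro n P Q hP hQ h
  obtain ⟨hQ1, C, B, hQ2⟩ := hQ
  have hstar : star P ≠ 0 := by
    intro h0
    apply hP
    exact MvPolynomial.map_injective (starRingEnd ℂ) (RingHom.injective _) (by
      rw [map_zero]; exact h0)
  have hexp : ExpType (fun y => MvPolynomial.eval y (star P) * Q y) := by
    refine ⟨Pool.Agent.Helper25.FB.Inj.mulP_mem (star P) ⟨Q, hQ1⟩, ?_⟩
    obtain ⟨C1, B1, h1, h2⟩ := Pool.Agent.Helper25.FB.Inj.poly_exp (star P)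
    refine ⟨C1 * C, B1 + B, fun z => ?_⟩
    rw [norm_mul, add_mul, Real.exp_add]
    calc ‖MvPolynomial.eval z (star P)‖ * ‖Q z‖ ≤
        (C1 * Real.exp (B1 * ‖z‖)) * (C * Real.exp (B * ‖z‖)) :=
          mul_le_mul (h2 z) (hQ2 z) (norm_nonneg _) (mul_nonneg h1 (Real.exp_pos _).le)
      _ = _ := by ring
  obtain ⟨T, hT, hTF⟩ := hF n P _ hexp h
  have hz : ∀ f : (Fin n → ℂ) → ℂ, Entire f → T f = 0 :=
    Pool.Agent.Helper25.FB.Inj.result.2.2 n P T hT Q hQ1 hTF
  refine zero_of_mul (star P) hstar Q hQ1.continuous fun z => ?_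
  have h1 := hTF z
  rw [← h1]
  exact hz _ (Pool.Agent.Helper25.FB.Inj.expo_mem z)

end Pool.Agent.Helper2.FN.INJ
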